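import Mathlib
import Pool.Agent.helper78.PP.Main2
import Pool.Agent.helper78.PP.Group

set_option autoImplicit false

/-!
Free pro-`p` groups have no faithful abstract representation of degree two over a commutative
ring, for every odd prime `p`.
-/

namespace Pool.Agent.Results.MP_cf2c92_al.DegreeTwo

open Pool.Agent.helper78.PP

universe w

/-- For every odd prime `p` and `d ≥ 2` some `z ≠ 1` in the free pro-`p` group on `d` letters is
killed by all abstract homomorphisms to `GL₂` of all commutative rings. -/
theorem result (p d : ℕ) (hp : p.Prime) (hp2 : p ≠ 2) (hd : 2 ≤ d) :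
    ∃ z : FreeProP p d, z ≠ 1 ∧
      ∀ (R : Type w) [CommRing R] (f : FreeProP p d →* GL (Fin 2) R), f z = 1 :=
  main_two p d hp hp2 hd (FreeProP p d) (freeProP_isLim p d)

end Pool.Agent.Results.MP_cf2c92_al.DegreeTwo
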